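import Pool.Agent.R130.CF.Three

/-!
# MP_f07b9f_nt : the extremal coprime-free sets of ideals when there are primes of norm 2

`K` is a number field, `Theta K N₀` the nonzero integral ideals of norm at most `N₀`, `P2 K` the
set of prime ideals of norm `2`, `tr K θ` the set of members of `P2 K` dividing `θ`
(definitions: `Pool/Agent/R130/CF/Ideals.lean`, and `E`, `TwoOf` in
`Pool/Agent/R130/CF/Three.lean`).
-/

open NumberField R130.CF.Ideals

/-- (1) If there is a prime of norm 2, then for all large `N₀` the extremal coprime-free subsets of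
`Θ(N₀)` are exactly the sets `{θ ∈ Θ(N₀) : tr θ ∈ F}`, `F` a maximal intersecting family of subsets
of `P2`, which have the largest cardinality among the sets of this form.
(2) The number of `θ ∈ Θ(N₀)` with `tr θ = S` (`∅ ≠ S ⊆ P2`) is
`T(|S|, N₀) = ∑_{m ≥ 1} C(m-1, |S|-1) B(N₀/2^m)`, `B(n)` the number of ideals of norm at most `n`
divisible by no prime of norm 2.
(3) If there are exactly three primes of norm 2, then for all large `N₀` the extremal sets are: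
`E(N₀, η₁)`, `E(N₀, η₂)`, `E(N₀, η₃)` if `T(1, N₀) > T(2, N₀)`; the set of ideals divisible by at
least two of `η₁, η₂, η₃` if `T(1, N₀) < T(2, N₀)`; these four sets if `T(1, N₀) = T(2, N₀)`. -/
theorem Pool.Agent.Results.MP_f07b9f_nt.Structure.result (K : Type) [Field K] [NumberField K] :
    ((P2 K).Nonempty → ∃ N₁ : ℕ, ∀ N₀ : ℕ, N₁ ≤ N₀ → ∀ A, Extremal K N₀ A ↔
      ∃ F, MaxIntersecting K F ∧ A = Fam K N₀ F ∧
        ∀ F', MaxIntersecting K F' → (Fam K N₀ F').ncard ≤ (Fam K N₀ F).ncard) ∧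
    (∀ (N₀ : ℕ) (S : Set (Ideal (𝓞 K))), S ⊆ P2 K → S.Nonempty →
      ({θ ∈ Theta K N₀ | tr K θ = S}).ncard = T K S.ncard N₀) ∧
    (∀ η₁ η₂ η₃ : Ideal (𝓞 K), η₁ ≠ η₂ → η₁ ≠ η₃ → η₂ ≠ η₃ → P2 K = {η₁, η₂, η₃} →
      ∃ N₁ : ℕ, ∀ N₀ : ℕ, N₁ ≤ N₀ → ∀ A, Extremal K N₀ A ↔
        ((T K 2 N₀ ≤ T K 1 N₀ ∧ (A = E K N₀ η₁ ∨ A = E K N₀ η₂ ∨ A = E K N₀ η₃)) ∨
          (T K 1 N₀ ≤ T K 2 N₀ ∧ A = TwoOf K N₀))) :=
  ⟨extremal_iff, ncard_type, fun _ _ _ h12 h13 h23 hP => three h12 h13 h23 hP⟩
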